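import Pool.Agent.Helper65.CS.Goals

/-!
# Overwriting as a mixture
-/

namespace Pool.Agent.Helper3.CS

open Pool.Agent.Helper65.CS

theorem mem_ex (al : List ℕ) (b : ℕ) (r y : List Bool) (v : ℕ) (c : Bool) :
    (v, c) ∈ ex al b r y ↔ ∃ j < al.length / 2 ^ b,
      al.getD (pk b (fun i => r.getD i false) j) 0 = v ∧ y.getD j false = c := by
  unfold ex
  rw [List.mem_map]
  constructor
  · rintro ⟨j, hj, h⟩
    exact ⟨j, List.mem_range.1 hj, (Prod.mk.inj h).1, (Prod.mk.inj h).2⟩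
  · rintro ⟨j, hj, h1, h2⟩
    exact ⟨j, List.mem_range.2 hj, by rw [h1, h2]⟩

theorem mem_chs (n : ℕ) (al : List ℕ) (b : ℕ) (r : ℕ → Bool) (v : Fin n) :
    v ∈ chs n al b r ↔ ∃ j < al.length / 2 ^ b, al.getD (pk b r j) 0 = (v : ℕ) := by
  unfold chs
  rw [Finset.mem_filter]
  exact ⟨fun h => h.2, fun h => ⟨Finset.mem_univ _, h⟩⟩

theorem ovx : OvxStmt := by
  intro n b al r y x
  funext v
  unfold mx rs
  by_cases hv : v ∈ chs n al b fun i => r.getD i false
  · rw [if_pos hv, Option.getD_none]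
    obtain ⟨j, hj, h⟩ := (mem_chs _ _ _ _ _).1 hv
    unfold ovr
    have h1 : ((v : ℕ), y.getD j false) ∈ ex al b r y := (mem_ex _ _ _ _ _ _).2 ⟨j, hj, h, rfl⟩
    by_cases h2 : ((v : ℕ), true) ∈ ex al b r y
    · rw [if_pos h2, if_pos h2]
    · have h3 : ((v : ℕ), false) ∈ ex al b r y := by
        cases hy : y.getD j false with
        | true => rw [hy] at h1; exact absurd h1 h2
        | false => rw [hy] at h1; exact h1
      rw [if_neg h2, if_neg h2, if_pos h3, if_pos h3]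
  · rw [if_neg hv, Option.getD_some]
    have h : ∀ c, ((v : ℕ), c) ∉ ex al b r y := by
      intro c hc
      obtain ⟨j, hj, h, _⟩ := (mem_ex _ _ _ _ _ _).1 hc
      exact hv ((mem_chs _ _ _ _ _).2 ⟨j, hj, h⟩)
    unfold ovr
    rw [if_neg (h true), if_neg (h false)]

end Pool.Agent.Helper3.CS
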